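import Pool.Agent.Helper54.PT.Defs

/-!
# TW module A0: existence of logarithms modulo `ℓ`
-/

set_option autoImplicit false

namespace Pool.Agent.Helper54.PT

/-- A0 -/
theorem exists_isLog {F : Type} [Field F] [Finite F] {ℓ : ℕ} [Fact ℓ.Prime]
    (h : ℓ ∣ Nat.card F - 1) : ∃ lg : F → ZMod ℓ, IsLog ℓ lg := by
  classical
  have hℓ : ℓ.Prime := Fact.out
  have hℓ0 : ℓ ≠ 0 := hℓ.ne_zero
  have hcard : Nat.card Fˣ = Nat.card F - 1 := Nat.card_units F
  have hdvd : ℓ ∣ Nat.card Fˣ := by rw [hcard]; exact h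
  have hN : Nat.card Fˣ ≠ 0 := Nat.card_pos.ne'
  have : NeZero (Nat.card Fˣ) := ⟨hN⟩
  let e : Multiplicative (ZMod (Nat.card Fˣ)) ≃* Fˣ := zmodCyclicMulEquiv (inferInstance : IsCyclic Fˣ)
  let c : ZMod (Nat.card Fˣ) →+* ZMod ℓ := ZMod.castHom hdvd (ZMod ℓ)
  let L : Fˣ → ZMod ℓ := fun x => c (Multiplicative.toAdd (e.symm x))
  have hLmul : ∀ x y, L (x * y) = L x + L y := by
    intro x y
    simp only [L, map_mul, toAdd_mul, map_add]
  have hc0 : ∀ a : ZMod (Nat.card Fˣ), c a = 0 ↔ ∃ b, a = ℓ • b := by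
    intro a
    constructor
    · intro ha
      have h1 : ((a.val : ℕ) : ZMod ℓ) = 0 := by
        have h2 : c ((a.val : ℕ) : ZMod (Nat.card Fˣ)) = ((a.val : ℕ) : ZMod ℓ) := map_natCast c _
        rw [ZMod.natCast_zmod_val] at h2
        rw [← h2, ha]
      rw [ZMod.natCast_eq_zero_iff] at h1
      obtain ⟨k, hk⟩ := h1
      refine ⟨(k : ZMod (Nat.card Fˣ)), ?_⟩
      rw [nsmul_eq_mul, ← Nat.cast_mul, ← hk, ZMod.natCast_zmod_val]
    · rintro ⟨b, rfl⟩
      rw [map_nsmul, nsmul_eq_mul, ZMod.natCast_self, zero_mul]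
  have hL0 : ∀ x, L x = 0 ↔ ∃ y, y ^ ℓ = x := by
    intro x
    simp only [L]
    rw [hc0]
    constructor
    · rintro ⟨b, hb⟩
      refine ⟨e (Multiplicative.ofAdd b), ?_⟩
      rw [← map_pow, ← ofAdd_nsmul, ← hb, ofAdd_toAdd, MulEquiv.apply_symm_apply]
    · rintro ⟨y, rfl⟩
      exact ⟨Multiplicative.toAdd (e.symm y), by rw [map_pow, toAdd_pow]⟩
  refine ⟨fun x => if hx : x = 0 then 0 else L (Units.mk0 x hx), ?_, ?_, ?_⟩
  · intro x y hx hy
    simp only [mul_eq_zero, hx, hy, or_self, dif_neg, not_false_eq_true]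
    rw [← hLmul]
    congr 1
    ext
    rfl
  · intro x hx
    simp only [hx, dif_neg, not_false_eq_true]
    rw [hL0]
    constructor
    · rintro ⟨y, hy⟩
      refine ⟨y, ?_⟩
      have := congrArg Units.val hy
      simpa using this
    · rintro ⟨y, hy⟩
      have hy0 : y ≠ 0 := by
        rintro rfl
        rw [zero_pow hℓ0] at hy
        exact hx hy.symm
      refine ⟨Units.mk0 y hy0, ?_⟩
      ext
      simpa using hy
  · intro a
    have hsurj : Function.Surjective c := ZMod.castHom_surjective hdvd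
    obtain ⟨b, hb⟩ := hsurj a
    refine ⟨(e (Multiplicative.ofAdd b) : Fˣ), Units.ne_zero _, ?_⟩
    simp only [Units.ne_zero, dif_neg, not_false_eq_true, Units.mk0_val, L,
      MulEquiv.symm_apply_apply, toAdd_ofAdd]
    exact hb

end Pool.Agent.Helper54.PT
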