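import Pool.Agent.Helper54.PT.Defs

/-!
# TW module B3: tuples with two linked indices of large degree
-/

set_option autoImplicit false
set_option linter.unusedSectionVars false

namespace Pool.Agent.Helper54.PT

open Finset Filter Topology

namespace B3

lemma norm_ee {ℓ : ℕ} [NeZero ℓ] (x : ZMod ℓ) : ‖ee x‖ = 1 := by
  unfold ee
  exact AddChar.norm_apply _ _

lemma ee_add {ℓ : ℕ} [NeZero ℓ] (x y : ZMod ℓ) : ee (x + y) = ee x * ee y := by
  unfold ee
  exact AddChar.map_add_eq_mul _ _ _

section

variable {ℓ : ℕ} {σ : Type} (X : PData ℓ σ)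

lemma symS_comm {A B : Finset X.P} (h : Disjoint A B) : X.symS B A = X.symS A B := by
  unfold PData.symS
  rw [Finset.sum_comm]
  apply Finset.sum_congr rfl
  intro p hp
  apply Finset.sum_congr rfl
  intro p' hp'
  apply X.sym_comm
  rintro rfl
  exact Finset.disjoint_left.1 h hp hp'

@[simp] lemma symS_empty_left (B : Finset X.P) : X.symS ∅ B = 0 := by
  simp [PData.symS]

@[simp] lemma symS_empty_right (B : Finset X.P) : X.symS B ∅ = 0 := by
  simp [PData.symS]

end

section

variable {ℓ : ℕ} [Fact ℓ.Prime] {σ : Type} [Fintype σ] (X : PData ℓ σ)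
variable {U : Type} [Fintype U] [DecidableEq U] (Φ : U → U → ZMod ℓ) (M : ℕ)
  (θ : U → Option σ → ZMod ℓ)

/-- The tuple with entries `A`, `B` at `u`, `u'`. -/
def put (E : U → Finset X.P) (u u' : U) (A B : Finset X.P) : U → Finset X.P :=
  Function.update (Function.update E u A) u' B

lemma put_left (E : U → Finset X.P) {u u' : U} (h : u ≠ u') (A B : Finset X.P) :
    put X E u u' A B u = A := by
  unfold put
  rw [Function.update_of_ne h, Function.update_self]

lemma put_right (E : U → Finset X.P) (u u' : U) (A B : Finset X.P) :
    put X E u u' A B u' = B := by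
  unfold put
  rw [Function.update_self]

lemma put_other (E : U → Finset X.P) {u u' v : U} (h : v ≠ u) (h' : v ≠ u') (A B : Finset X.P) :
    put X E u u' A B v = E v := by
  unfold put
  rw [Function.update_of_ne h', Function.update_of_ne h]

/-- The exponent of the weight. -/
def ex (D : U → Finset X.P) : ZMod ℓ := ∑ v, ∑ v', Φ v v' * X.symS (D v) (D v')

/-- The part of the exponent depending on one entry. -/
def psi (E : U → Finset X.P) (u : U) (A : Finset X.P) : ZMod ℓ :=
  ∑ v, (Φ u v * X.symS A (E v) + Φ v u * X.symS (E v) A)

lemma ex_put (hΦ : ∀ u, Φ u u = 0) (E : U → Finset X.P) {u u' : U} (h : u ≠ u')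
    (hu : E u = ∅) (hu' : E u' = ∅) (A B : Finset X.P) :
    ex X Φ (put X E u u' A B) = ex X Φ E + psi X Φ E u A + psi X Φ E u' B +
      (Φ u u' * X.symS A B + Φ u' u * X.symS B A) := by
  have key : ∀ v v', Φ v v' * X.symS (put X E u u' A B v) (put X E u u' A B v') =
      Φ v v' * X.symS (E v) (E v') +
      ((if v = u then Φ u v' * X.symS A (E v') else 0) +
        (if v' = u then Φ v u * X.symS (E v) A else 0)) +
      ((if v = u' then Φ u' v' * X.symS B (E v') else 0) +
        (if v' = u' then Φ v u' * X.symS (E v) B else 0)) +
      ((if v = u then (if v' = u' then Φ u u' * X.symS A B else 0) else 0) +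
        (if v = u' then (if v' = u then Φ u' u * X.symS B A else 0) else 0)) := by
    intro v v'
    by_cases h1 : v = u
    · subst h1
      have h1' : v ≠ u' := h
      by_cases h2 : v' = v
      · subst h2
        simp [hΦ, h1']
      · by_cases h3 : v' = u'
        · subst h3
          simp [put_left X E h, put_right, h1', Ne.symm h1', hu, hu']
        · simp [put_left X E h, put_other X E h2 h3, h1', h2, h3, hu]
    · by_cases h2 : v = u'
      · subst h2
        by_cases h3 : v' = u
        · subst h3
          simp [put_left X E h, put_right, h1, Ne.symm h1, hu, hu']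
        · by_cases h4 : v' = v
          · subst h4
            simp [hΦ, h1]
          · simp [put_right, put_other X E h3 h4, h1, h3, h4, hu']
      · by_cases h3 : v' = u
        · subst h3
          simp [put_left X E h, put_other X E h1 h2, h1, h2, h, hu]
        · by_cases h4 : v' = u'
          · subst h4
            simp [put_right, put_other X E h1 h2, h1, h2, h3, hu']
          · simp [put_other X E h1 h2, put_other X E h3 h4, h1, h2, h3, h4]
  unfold ex psi
  simp only [key, Finset.sum_add_distrib, Finset.sum_ite_eq', Finset.mem_univ, if_true]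
  have e1 : ∀ (f : U → ZMod ℓ) (w : U), ∑ v, ∑ v', (if v = w then f v' else 0) = ∑ v', f v' := by
    intro f w
    rw [Finset.sum_comm]
    simp
  rw [e1 (fun x => Φ u x * X.symS A (E x)) u, e1 (fun x => Φ u' x * X.symS B (E x)) u',
    e1 (fun x => if x = u' then Φ u u' * X.symS A B else 0) u,
    e1 (fun x => if x = u then Φ u' u * X.symS B A else 0) u']
  simp only [Finset.sum_ite_eq', Finset.mem_univ, if_true]

/-- The product part of the weight at one index. -/
noncomputable def pw (u : U) (A : Finset X.P) : ℂ := ∏ p ∈ A, (ee (dot (θ u) (X.xx p)) / (M : ℂ))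

omit [Fintype U] [DecidableEq U] in
lemma norm_pw_le (hM : 1 ≤ M) (u : U) (A : Finset X.P) : ‖pw X M θ u A‖ ≤ 1 := by
  unfold pw
  rw [norm_prod]
  apply Finset.prod_le_one
  · intro p _
    exact norm_nonneg _
  · intro p _
    rw [norm_div, norm_ee, Complex.norm_natCast]
    have : (1 : ℝ) ≤ M := by exact_mod_cast hM
    rw [div_le_one (by linarith)]
    exact this

lemma prod_put (E : U → Finset X.P) {u u' : U} (h : u ≠ u')
    (hu : E u = ∅) (hu' : E u' = ∅) (A B : Finset X.P) :
    ∏ v, pw X M θ v (put X E u u' A B v) =
      (∏ v, pw X M θ v (E v)) * pw X M θ u A * pw X M θ u' B := by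
  have key : ∀ v, pw X M θ v (put X E u u' A B v) = pw X M θ v (E v) *
      (if v = u then pw X M θ u A else 1) * (if v = u' then pw X M θ u' B else 1) := by
    intro v
    by_cases h1 : v = u
    · subst h1
      simp [put_left X E h, h, hu, pw]
    · by_cases h2 : v = u'
      · subst h2
        simp [put_right, h1, hu', pw]
      · simp [put_other X E h1 h2, h1, h2]
  simp only [key, Finset.prod_mul_distrib, Finset.prod_ite_eq', Finset.mem_univ, if_true]

lemma wt_put (hΦ : ∀ u, Φ u u = 0) (E : U → Finset X.P) {u u' : U} (h : u ≠ u')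
    (hu : E u = ∅) (hu' : E u' = ∅) {A B : Finset X.P} (hAB : Disjoint A B) :
    X.wt Φ M θ (put X E u u' A B) = ((∏ v, pw X M θ v (E v)) * ee (ex X Φ E)) *
      ((pw X M θ u A * ee (psi X Φ E u A)) * (pw X M θ u' B * ee (psi X Φ E u' B)) *
        ee ((Φ u u' + Φ u' u) * X.symS A B)) := by
  have h1 : X.wt Φ M θ (put X E u u' A B) =
      (∏ v, pw X M θ v (put X E u u' A B v)) * ee (ex X Φ (put X E u u' A B)) := rfl
  rw [h1, prod_put X M θ E h hu hu', ex_put X Φ hΦ E h hu hu', symS_comm X hAB]
  have h2 : ex X Φ E + psi X Φ E u A + psi X Φ E u' B +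
      (Φ u u' * X.symS A B + Φ u' u * X.symS A B) =
      ex X Φ E + (psi X Φ E u A + (psi X Φ E u' B + (Φ u u' + Φ u' u) * X.symS A B)) := by ring
  rw [h2, ee_add, ee_add, ee_add]
  ring

end

end B3

section

variable {ℓ : ℕ} [Fact ℓ.Prime] {σ : Type} [Fintype σ] [DecidableEq σ] (X : PData ℓ σ) {q : ℕ}

variable {U : Type} [Fintype U] [DecidableEq U] (Φ : U → U → ZMod ℓ) (M : ℕ)
  (θ : U → Option σ → ZMod ℓ)

open B3 in
/-- B3: tuples with two linked indices of large degree -/
theorem SS_linked (hX : X.Inputs q) (hM : 1 ≤ M) (hΦ : ∀ u, Φ u u = 0) (m : U → ℕ) (n : ℕ)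
    (hm : ∑ u, m u = n) (u u' : U) (hne : Φ u u' + Φ u' u ≠ 0) (hle : m u ≤ m u') :
    ‖X.SS Φ M θ m‖ ^ 4 * (q : ℝ) ^ m u ≤ (n + 1) * (q : ℝ) ^ (4 * n) := by
  classical
  have huu : u ≠ u' := by
    rintro rfl
    rw [hΦ, add_zero] at hne
    exact hne rfl
  have hq1 : (1 : ℝ) ≤ q := by
    have := hX.two_le
    exact_mod_cast (by omega : 1 ≤ q)
  -- the other entries
  let rest : (U → Finset X.P) → (U → Finset X.P) := fun D => put X D u u' ∅ ∅
  let 𝓔 : Finset (U → Finset X.P) :=
    Fintype.piFinset fun v => if v = u ∨ v = u' then {∅} else X.sq (m v)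
  have hmaps : ∀ D ∈ X.tup m, rest D ∈ 𝓔 := by
    intro D hD
    rw [PData.mem_tup] at hD
    rw [Fintype.mem_piFinset]
    intro v
    by_cases h1 : v = u
    · subst h1
      simp [rest, put_left X D huu]
    · by_cases h2 : v = u'
      · subst h2
        simp [rest, put_right]
      · rw [if_neg (by tauto)]
        simp only [rest, put_other X D h1 h2]
        rw [PData.mem_sq]
        exact hD.1 v
  have hSS : X.SS Φ M θ m = ∑ E ∈ 𝓔, ∑ D ∈ (X.tup m).filter (fun D => rest D = E),
      X.wt Φ M θ D := by
    unfold PData.SS
    rw [Finset.sum_fiberwise_of_maps_to hmaps]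
  -- bound for one choice of the other entries
  set T : ℝ := (m u' + 1) * (q : ℝ) ^ (3 * m u + 4 * m u') with hT
  have hT0 : 0 ≤ T := by positivity
  have hinner : ∀ E ∈ 𝓔, ‖∑ D ∈ (X.tup m).filter (fun D => rest D = E), X.wt Φ M θ D‖ ^ 4 ≤ T := by
    intro E hE
    rw [Fintype.mem_piFinset] at hE
    have hEu : E u = ∅ := by
      have := hE u
      simpa using this
    have hEu' : E u' = ∅ := by
      have := hE u'
      simpa using this
    have hEv : ∀ v, v ≠ u → v ≠ u' → X.dg (E v) = m v := by
      intro v h1 h2
      have := hE v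
      rw [if_neg (by tauto), PData.mem_sq] at this
      exact this
    by_cases hdis : ∀ v w, v ≠ w → Disjoint (E v) (E w)
    swap
    · have : (X.tup m).filter (fun D => rest D = E) = ∅ := by
        apply Finset.filter_false_of_mem
        rintro D hD rfl
        apply hdis
        intro v w hvw
        rw [PData.mem_tup] at hD
        have hsub : ∀ x, rest D x ⊆ D x := by
          intro x
          by_cases h1 : x = u
          · subst h1
            simp [rest, put_left X D huu]
          · by_cases h2 : x = u'
            · subst h2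
              simp [rest, put_right]
            · simp only [rest, put_other X D h1 h2]
              exact Finset.Subset.refl _
        exact Finset.disjoint_of_subset_left (hsub v)
          (Finset.disjoint_of_subset_right (hsub w) (hD.2 v w hvw))
      rw [this, Finset.sum_empty, norm_zero]
      simpa using hT0
    let α : Finset X.P → ℂ := fun A => if ∀ v, Disjoint A (E v) then
      pw X M θ u A * ee (psi X Φ E u A) else 0
    let β : Finset X.P → ℂ := fun B => if ∀ v, Disjoint B (E v) then
      pw X M θ u' B * ee (psi X Φ E u' B) else 0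
    have hα : ∀ A, ‖α A‖ ≤ 1 := by
      intro A
      simp only [α]
      split_ifs
      · rw [norm_mul, norm_ee, mul_one]
        exact norm_pw_le X M θ hM u A
      · simp
    have hβ : ∀ B, ‖β B‖ ≤ 1 := by
      intro B
      simp only [β]
      split_ifs
      · rw [norm_mul, norm_ee, mul_one]
        exact norm_pw_le X M θ hM u' B
      · simp
    set γ : ℂ := (∏ v, pw X M θ v (E v)) * ee (ex X Φ E) with hγ
    have hγ1 : ‖γ‖ ≤ 1 := by
      rw [hγ, norm_mul, norm_ee, mul_one, norm_prod]
      exact Finset.prod_le_one (fun v _ => norm_nonneg _) fun v _ => norm_pw_le X M θ hM v _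
    have hsum : ∑ D ∈ (X.tup m).filter (fun D => rest D = E), X.wt Φ M θ D =
        γ * ∑ A ∈ X.sq (m u), ∑ B ∈ X.sq (m u'), if Disjoint A B then
          α A * β B * ee ((Φ u u' + Φ u' u) * X.symS A B) else 0 := by
      rw [← Finset.sum_product', Finset.mul_sum]
      have e1 : ∀ x ∈ X.sq (m u) ×ˢ X.sq (m u'), (γ * if Disjoint x.1 x.2 then
          α x.1 * β x.2 * ee ((Φ u u' + Φ u' u) * X.symS x.1 x.2) else 0) =
          if (Disjoint x.1 x.2 ∧ (∀ v, Disjoint x.1 (E v)) ∧ ∀ v, Disjoint x.2 (E v)) then
            X.wt Φ M θ (put X E u u' x.1 x.2) else 0 := by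
        intro x _
        by_cases h1 : Disjoint x.1 x.2
        · by_cases h2 : ∀ v, Disjoint x.1 (E v)
          · by_cases h3 : ∀ v, Disjoint x.2 (E v)
            · rw [if_pos h1, if_pos ⟨h1, h2, h3⟩, wt_put X Φ M θ hΦ E huu hEu hEu' h1]
              simp only [α, β]
              rw [if_pos h2, if_pos h3]
            · rw [if_pos h1, if_neg (by tauto)]
              simp only [β]
              rw [if_neg h3]
              ring
          · rw [if_pos h1, if_neg (by tauto)]
            simp only [α]
            rw [if_neg h2]
            ring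
        · rw [if_neg h1, if_neg (by tauto), mul_zero]
      rw [Finset.sum_congr rfl e1, ← Finset.sum_filter]
      apply Finset.sum_nbij' (fun D => (D u, D u')) (fun x => put X E u u' x.1 x.2)
      · intro D hD
        rw [Finset.mem_filter, PData.mem_tup] at hD
        obtain ⟨⟨hD1, hD2⟩, hD3⟩ := hD
        rw [Finset.mem_filter, Finset.mem_product, PData.mem_sq, PData.mem_sq]
        have hDE : ∀ v, v ≠ u → v ≠ u' → E v = D v := by
          intro v h1 h2
          rw [← hD3]
          exact put_other X D h1 h2 _ _
        refine ⟨⟨hD1 u, hD1 u'⟩, hD2 u u' huu, ?_, ?_⟩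
        · intro v
          by_cases h1 : v = u
          · rw [h1, hEu]
            exact Finset.disjoint_empty_right _
          · by_cases h2 : v = u'
            · rw [h2, hEu']
              exact Finset.disjoint_empty_right _
            · rw [hDE v h1 h2]
              exact hD2 u v (Ne.symm h1)
        · intro v
          by_cases h1 : v = u
          · rw [h1, hEu]
            exact Finset.disjoint_empty_right _
          · by_cases h2 : v = u'
            · rw [h2, hEu']
              exact Finset.disjoint_empty_right _
            · rw [hDE v h1 h2]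
              exact hD2 u' v (Ne.symm h2)
      · intro x hx
        rw [Finset.mem_filter, Finset.mem_product, PData.mem_sq, PData.mem_sq] at hx
        obtain ⟨⟨h1, h2⟩, h3, h4, h5⟩ := hx
        rw [Finset.mem_filter, PData.mem_tup]
        refine ⟨⟨?_, ?_⟩, ?_⟩
        · intro v
          by_cases hv : v = u
          · subst hv
            rw [put_left X E huu]
            exact h1
          · by_cases hv' : v = u'
            · subst hv'
              rw [put_right]
              exact h2
            · rw [put_other X E hv hv']
              exact hEv v hv hv'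
        · intro v w hvw
          by_cases hv : v = u
          · subst hv
            rw [put_left X E huu]
            by_cases hw : w = u'
            · subst hw
              rw [put_right]
              exact h3
            · rw [put_other X E (Ne.symm hvw) hw]
              exact h4 w
          · by_cases hv' : v = u'
            · subst hv'
              rw [put_right]
              by_cases hw : w = u
              · subst hw
                rw [put_left X E huu]
                exact h3.symm
              · rw [put_other X E hw (Ne.symm hvw)]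
                exact h5 w
            · rw [put_other X E hv hv']
              by_cases hw : w = u
              · subst hw
                rw [put_left X E huu]
                exact (h4 v).symm
              · by_cases hw' : w = u'
                · subst hw'
                  rw [put_right]
                  exact (h5 v).symm
                · rw [put_other X E hw hw']
                  exact hdis v w hvw
        · funext v
          by_cases hv : v = u
          · subst hv
            simp only [rest]
            rw [put_left X _ huu, hEu]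
          · by_cases hv' : v = u'
            · subst hv'
              simp only [rest]
              rw [put_right, hEu']
            · simp only [rest]
              rw [put_other X _ hv hv', put_other X _ hv hv']
      · intro D hD
        rw [Finset.mem_filter, PData.mem_tup] at hD
        funext v
        by_cases hv : v = u
        · subst hv
          rw [put_left X _ huu]
        · by_cases hv' : v = u'
          · subst hv'
            rw [put_right]
          · rw [put_other X _ hv hv', ← hD.2]
            exact put_other X D hv hv' _ _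
      · intro x _
        simp only [put_left X E huu, put_right]
      · intro D hD
        rw [Finset.mem_filter, PData.mem_tup] at hD
        congr 1
        funext v
        by_cases hv : v = u
        · subst hv
          rw [put_left X _ huu]
        · by_cases hv' : v = u'
          · subst hv'
            rw [put_right]
          · rw [put_other X _ hv hv', ← hD.2]
            exact (put_other X D hv hv' _ _).symm
    rw [hsum, norm_mul, mul_pow]
    have hb := hX.bilin (m u) (m u') hle (Φ u u' + Φ u' u) hne α β hα hβ
    calc ‖γ‖ ^ 4 * ‖∑ A ∈ X.sq (m u), ∑ B ∈ X.sq (m u'), if Disjoint A B then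
          α A * β B * ee ((Φ u u' + Φ u' u) * X.symS A B) else 0‖ ^ 4
        ≤ 1 * ‖∑ A ∈ X.sq (m u), ∑ B ∈ X.sq (m u'), if Disjoint A B then
          α A * β B * ee ((Φ u u' + Φ u' u) * X.symS A B) else 0‖ ^ 4 :=
          mul_le_mul_of_nonneg_right (pow_le_one₀ (norm_nonneg _) hγ1) (by positivity)
      _ ≤ T := by rw [one_mul]; exact hb
  -- number of choices of the other entries
  set N : ℕ := ∑ v, (if v = u ∨ v = u' then 0 else m v) with hN
  have hNn : N + m u + m u' = n := by
    rw [← hm, hN]
    have e : ∀ v, m v = (if v = u ∨ v = u' then 0 else m v) + (if v = u then m u else 0) +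
        (if v = u' then m u' else 0) := by
      intro v
      by_cases h1 : v = u
      · subst h1
        simp [huu]
      · by_cases h2 : v = u'
        · subst h2
          simp [h1]
        · simp [h1, h2]
    conv_rhs => rw [Finset.sum_congr rfl fun v _ => e v]
    simp only [Finset.sum_add_distrib, Finset.sum_ite_eq', Finset.mem_univ, if_true]
  have hcard : 𝓔.card ≤ q ^ N := by
    simp only [𝓔]
    rw [Fintype.card_piFinset, hN, ← Finset.prod_pow_eq_pow_sum]
    apply Finset.prod_le_prod'
    intro v _
    by_cases h : v = u ∨ v = u'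
    · rw [if_pos h, if_pos h]
      simp
    · rw [if_neg h, if_neg h]
      exact hX.card_sq (m v)
  have hcardR : (𝓔.card : ℝ) ≤ (q : ℝ) ^ N := by exact_mod_cast hcard
  -- conclusion
  have hSS4 : ‖X.SS Φ M θ m‖ ^ 4 ≤ ((q : ℝ) ^ N) ^ 4 * T := by
    rcases 𝓔.eq_empty_or_nonempty with he | hne'
    · rw [hSS, he, Finset.sum_empty, norm_zero]
      have : (0 : ℝ) ≤ ((q : ℝ) ^ N) ^ 4 * T := by positivity
      simpa using this
    · obtain ⟨E₀, hE₀, hmax⟩ := Finset.exists_max_image 𝓔
        (fun E => ‖∑ D ∈ (X.tup m).filter (fun D => rest D = E), X.wt Φ M θ D‖) hne'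
      have h1 : ‖X.SS Φ M θ m‖ ≤ (q : ℝ) ^ N *
          ‖∑ D ∈ (X.tup m).filter (fun D => rest D = E₀), X.wt Φ M θ D‖ := by
        rw [hSS]
        refine (norm_sum_le _ _).trans ((Finset.sum_le_sum hmax).trans ?_)
        rw [Finset.sum_const, nsmul_eq_mul]
        exact mul_le_mul_of_nonneg_right hcardR (norm_nonneg _)
      calc ‖X.SS Φ M θ m‖ ^ 4 ≤ ((q : ℝ) ^ N *
          ‖∑ D ∈ (X.tup m).filter (fun D => rest D = E₀), X.wt Φ M θ D‖) ^ 4 :=
            pow_le_pow_left₀ (norm_nonneg _) h1 4
        _ = ((q : ℝ) ^ N) ^ 4 *
          ‖∑ D ∈ (X.tup m).filter (fun D => rest D = E₀), X.wt Φ M θ D‖ ^ 4 := by rw [mul_pow]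
        _ ≤ ((q : ℝ) ^ N) ^ 4 * T := mul_le_mul_of_nonneg_left (hinner E₀ hE₀) (by positivity)
  have hle' : ((m u' : ℝ) + 1) ≤ n + 1 := by
    have : m u' ≤ n := by omega
    have : (m u' : ℝ) ≤ n := by exact_mod_cast this
    linarith
  calc ‖X.SS Φ M θ m‖ ^ 4 * (q : ℝ) ^ m u ≤ ((q : ℝ) ^ N) ^ 4 * T * (q : ℝ) ^ m u :=
        mul_le_mul_of_nonneg_right hSS4 (by positivity)
    _ = (m u' + 1) * (q : ℝ) ^ (4 * n) := by
        rw [hT, ← hNn]
        ring
    _ ≤ (n + 1) * (q : ℝ) ^ (4 * n) := mul_le_mul_of_nonneg_right hle' (by positivity)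

end

end Pool.Agent.Helper54.PT
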