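import Pool.Agent.Helper54.PT.DefsE
import Pool.Agent.Helper3.TW.D5
import Pool.Agent.Helper92.TW.D6a
import Pool.Agent.Helper42.TW.D6c
import Pool.Agent.Helper96.TW.D6d
import Pool.Agent.Helper57.TW.D6e

/-!
# MP_1d384c_nt, module D6f: the parity theorem
-/

set_option autoImplicit false

namespace Pool.Agent.Helper54.PT

open Polynomial Finset Filter Topology Module

section D6f

variable {ι : Type} [Fintype ι] [DecidableEq ι] (a : ι → ℕ) (i₀ : ι)

theorem d6f_ext_mul (c : ZMod 2) (v : {j : ι // j ≠ i₀} → ZMod 2) (i : ι) :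
    ext a i₀ (fun j => v j * c) i = ext a i₀ v i * c := by
  unfold ext
  split_ifs with h
  · rw [neg_mul, mul_assoc, Finset.sum_mul]
    congr 2
    exact sum_congr rfl fun j _ => by ring
  · rfl

theorem d6f_ext_sum {K : Type} (s : Finset K) (f : K → {j : ι // j ≠ i₀} → ZMod 2) (i : ι) :
    ext a i₀ (fun j => ∑ k ∈ s, f k j) i = ∑ k ∈ s, ext a i₀ (f k) i := by
  classical
  induction s using Finset.induction_on with
  | empty =>
    rw [Finset.sum_empty]
    exact ext_zero a i₀ i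
  | insert k s hk ih =>
    have h : (fun j => ∑ k' ∈ insert k s, f k' j) = f k + (fun j => ∑ k' ∈ s, f k' j) := by
      funext j
      rw [Pi.add_apply, Finset.sum_insert hk]
    rw [h, ext_add, Pi.add_apply, ih, Finset.sum_insert hk]

variable {σ : Type} [Fintype σ] [DecidableEq σ] (i₁ i₂ : σ → ι) (lgl : ι → ι → ZMod 2)
  (dR : σ → ZMod 2) (sR : σ → σ → ZMod 2) (X : PData 2 σ) (D : Finset X.P)

theorem d6f_zZ_some (x : Pl X D → {j : ι // j ≠ i₀} → ZMod 2) (r : σ) (m : ι) :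
    ext a i₀ (zZ i₀ dR sR X D x (Sum.inl (some r))) m =
      un a i₀ dR sR (fun s => x (Sum.inl s)) (ysum X fun p => x (Sum.inr p)) r m := by
  have h : zZ i₀ dR sR X D x (Sum.inl (some r)) =
      (fun j => ∑ r' ∈ univ.erase r, x (Sum.inl (some r')) j * sR r r') +
        (fun j => x (Sum.inl none) j * dR r) + ysum X (fun p => x (Sum.inr p)) (some r) := rfl
  rw [h, ext_add, ext_add, Pi.add_apply, Pi.add_apply, un, d6f_ext_mul]
  congr 2
  rw [d6f_ext_sum]
  exact sum_congr rfl fun r' _ => d6f_ext_mul a i₀ _ _ _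

theorem d6f_loc_iff (N : ZMod 2) (κ : Option σ → ZMod 2) (ram : Prop)
    (x : Pl X D → {j : ι // j ≠ i₀} → ZMod 2) :
    (∀ t, locC a i₀ i₁ i₂ lgl dR sR X D N κ ram t (x t) (zZ i₀ dR sR X D x t)) ↔
      HH a i₀ i₁ i₂ lgl dR sR N (fun s => x (Sum.inl s)) (ysum X fun p => x (Sum.inr p)) κ ∧
        ∀ p, (ram → ∀ j, pcond X (tau a i₀ i₁ i₂ lgl) (fun s => x (Sum.inl s))
          (fun p => x (Sum.inr p)) p j = 0) ∧ (¬ ram → ∀ j, x (Sum.inr p) j = 0) := by
  have hp : ∀ p : D, ∀ j, (zZ i₀ dR sR X D x (Sum.inr p) j =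
      (∑ p' : D, if p' = p then 0 else X.sym p'.1 p.1) * x (Sum.inr p) j +
        ∑ s, tau a i₀ i₁ i₂ lgl (x (Sum.inr p)) j s * X.xx p.1 s) ↔
      pcond X (tau a i₀ i₁ i₂ lgl) (fun s => x (Sum.inl s)) (fun p => x (Sum.inr p)) p j = 0 := by
    intro p j
    have h1 : zZ i₀ dR sR X D x (Sum.inr p) j = ∑ s : Option σ, x (Sum.inl s) j * X.xx p.1 s +
      ∑ p' : D, (if p' = p then 0 else x (Sum.inr p') j * X.sym p'.1 p.1) := rfl
    have h2 : ∑ p' : D, (if p' = p then 0 else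
        ((x (Sum.inr p') j - x (Sum.inr p) j) * X.sym p'.1 p.1)) =
        ∑ p' : D, (if p' = p then 0 else x (Sum.inr p') j * X.sym p'.1 p.1) -
        (∑ p' : D, if p' = p then 0 else X.sym p'.1 p.1) * x (Sum.inr p) j := by
      rw [Finset.sum_mul, ← Finset.sum_sub_distrib]
      refine sum_congr rfl fun p' _ => ?_
      split_ifs <;> ring
    rw [pcond, h2, h1]
    constructor
    · intro h
      linear_combination h
    · intro h
      linear_combination h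
  constructor
  · intro h
    refine ⟨⟨fun r => ?_, ?_, ?_⟩, fun p => ⟨fun hr j => ?_, fun hr => ?_⟩⟩
    · have h1 := h (Sum.inl (some r))
      simp only [locC] at h1
      rw [d6f_zZ_some, d6f_zZ_some] at h1
      exact h1
    · have h1 := h (Sum.inl none)
      simp only [locC] at h1
      exact h1.1
    · have h1 := h (Sum.inl none)
      simp only [locC] at h1
      exact h1.2
    · have h1 := h (Sum.inr p)
      simp only [locC] at h1
      exact (hp p j).1 (h1.1 hr j)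
    · have h1 := h (Sum.inr p)
      simp only [locC] at h1
      exact h1.2 hr
  · rintro ⟨⟨h1, h2, h3⟩, h4⟩ t
    rcases t with (_ | r) | p
    · simp only [locC]
      exact ⟨h2, h3⟩
    · simp only [locC]
      rw [d6f_zZ_some, d6f_zZ_some]
      exact h1 r
    · simp only [locC]
      exact ⟨fun hr j => (hp p j).2 ((h4 p).1 hr j), (h4 p).2⟩

omit [DecidableEq ι] [DecidableEq σ] in
theorem d6f_card (L : Submodule (ZMod 2) (QV i₀ X D)) :
    Nat.card L = 2 ^ finrank (ZMod 2) L := by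
  rw [Module.natCard_eq_pow_finrank (K := ZMod 2)]
  simp

theorem d6f_GD (N : ZMod 2) (L : Submodule (ZMod 2) (QV i₀ X D))
    (hL : ∀ x, x ∈ L ↔ ∀ t, locC a i₀ i₁ i₂ lgl dR sR X D N (kap X D) True t (x.1 t) (x.2 t)) :
    (GD X (tau a i₀ i₁ i₂ lgl) (HH a i₀ i₁ i₂ lgl dR sR N) D).card =
      2 ^ finrank (ZMod 2) (LW i₀ dR sR X D ⊓ L : Submodule (ZMod 2) (QV i₀ X D)) := by
  classical
  rw [← d6f_card, ← Fintype.card_coe, ← Nat.card_eq_fintype_card]
  have key : ∀ x : Pl X D → {j : ι // j ≠ i₀} → ZMod 2,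
      (∀ t, locC a i₀ i₁ i₂ lgl dR sR X D N (kap X D) True t (x t) (zZ i₀ dR sR X D x t)) ↔
      ((fun s => x (Sum.inl s), fun p => x (Sum.inr p)) :
        (Option σ → {j : ι // j ≠ i₀} → ZMod 2) × (D → {j : ι // j ≠ i₀} → ZMod 2)) ∈
        GD X (tau a i₀ i₁ i₂ lgl) (HH a i₀ i₁ i₂ lgl dR sR N) D := by
    intro x
    rw [d6f_loc_iff, GD, mem_filter]
    constructor
    · rintro ⟨h1, h2⟩
      exact ⟨mem_univ _, h1, fun p j => (h2 p).1 trivial j⟩
    · rintro ⟨_, h1, h2⟩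
      exact ⟨h1, fun p => ⟨fun _ j => h2 p j, fun h => absurd trivial h⟩⟩
  refine (Nat.card_congr ?_).symm
  refine
    { toFun := fun x => ⟨(fun s => x.1.1 (Sum.inl s), fun p => x.1.1 (Sum.inr p)), ?_⟩
      invFun := fun y => ⟨(Sum.elim y.1.1 y.1.2, zZ i₀ dR sR X D (Sum.elim y.1.1 y.1.2)), ?_⟩
      left_inv := ?_
      right_inv := ?_ }
  · have h1 : x.1.2 = zZ i₀ dR sR X D x.1.1 := x.2.1
    have h2 := (hL x.1).1 x.2.2
    rw [h1] at h2
    exact (key x.1.1).1 h2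
  · refine ⟨rfl, ?_⟩
    have h2 : (Sum.elim y.1.1 y.1.2, zZ i₀ dR sR X D (Sum.elim y.1.1 y.1.2)) ∈ L := by
      rw [hL]
      exact (key (Sum.elim y.1.1 y.1.2)).2 y.2
    exact h2
  · intro x
    apply Subtype.ext
    have h1 : x.1.2 = zZ i₀ dR sR X D x.1.1 := x.2.1
    have h3 : (Sum.elim (fun s => x.1.1 (Sum.inl s)) (fun p => x.1.1 (Sum.inr p)) :
        Pl X D → {j : ι // j ≠ i₀} → ZMod 2) = x.1.1 := by
      funext t
      rcases t with s | p <;> rfl
    apply Prod.ext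
    · exact h3
    · show zZ i₀ dR sR X D (Sum.elim (fun s => x.1.1 (Sum.inl s)) (fun p => x.1.1 (Sum.inr p))) =
        x.1.2
      rw [h3, h1]
  · intro y
    rfl

theorem d6f_HH (N : ZMod 2) (κ' : Option σ → ZMod 2) (L : Submodule (ZMod 2) (QV i₀ X D))
    (hL : ∀ x, x ∈ L ↔ ∀ t, locC a i₀ i₁ i₂ lgl dR sR X D N κ' False t (x.1 t) (x.2 t)) :
    (open Classical in (univ.filter fun b : Option σ → {j : ι // j ≠ i₀} → ZMod 2 =>
        HH a i₀ i₁ i₂ lgl dR sR N b 0 κ').card) =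
      2 ^ finrank (ZMod 2) (L ⊓ LW i₀ dR sR X D : Submodule (ZMod 2) (QV i₀ X D)) := by
  classical
  rw [← d6f_card, ← Fintype.card_subtype, ← Nat.card_eq_fintype_card]
  have hy : ysum X (fun p : D => (0 : {j : ι // j ≠ i₀} → ZMod 2)) = 0 := by
    funext s j
    simp [ysum]
  refine (Nat.card_congr ?_).symm
  refine
    { toFun := fun x => ⟨fun s => x.1.1 (Sum.inl s), ?_⟩
      invFun := fun y => ⟨(Sum.elim y.1 (fun _ => 0), zZ i₀ dR sR X D (Sum.elim y.1 (fun _ => 0))), ?_⟩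
      left_inv := ?_
      right_inv := ?_ }
  · have h1 : x.1.2 = zZ i₀ dR sR X D x.1.1 := x.2.2
    have h2 := (hL x.1).1 x.2.1
    rw [h1, d6f_loc_iff] at h2
    have h3 : (fun p : D => x.1.1 (Sum.inr p)) = fun _ => 0 := by
      funext p j
      exact (h2.2 p).2 (fun h => h) j
    have h4 := h2.1
    rw [h3, hy] at h4
    exact h4
  · refine ⟨?_, rfl⟩
    have h2 : (Sum.elim y.1 (fun _ => 0), zZ i₀ dR sR X D (Sum.elim y.1 (fun _ => 0))) ∈ L := by
      rw [hL]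
      refine (d6f_loc_iff a i₀ i₁ i₂ lgl dR sR X D N κ' False (Sum.elim y.1 (fun _ => 0))).2 ⟨?_,
        fun p => ⟨fun h => absurd h (fun h => h), fun _ j => rfl⟩⟩
      have h5 : ysum X (fun p : D => (Sum.elim y.1 (fun _ => 0) :
          Pl X D → {j : ι // j ≠ i₀} → ZMod 2) (Sum.inr p)) = 0 := hy
      rw [h5]
      exact y.2
    exact h2
  · intro x
    apply Subtype.ext
    have h1 : x.1.2 = zZ i₀ dR sR X D x.1.1 := x.2.2
    have h2 := (hL x.1).1 x.2.1
    rw [h1, d6f_loc_iff] at h2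
    have h3 : (Sum.elim (fun s => x.1.1 (Sum.inl s)) (fun _ => 0) :
        Pl X D → {j : ι // j ≠ i₀} → ZMod 2) = x.1.1 := by
      funext t
      rcases t with s | p
      · rfl
      · funext j
        exact ((h2.2 p).2 (fun h => h) j).symm
    apply Prod.ext
    · exact h3
    · show zZ i₀ dR sR X D (Sum.elim (fun s => x.1.1 (Sum.inl s)) (fun _ => 0)) = x.1.2
      rw [h3, h1]
  · intro y
    rfl

theorem d6f_even (ha : ∀ i, ¬ 2 ∣ a i) (hs : ¬ 2 ∣ ∑ i, a i) :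
    Even (Fintype.card {j : ι // j ≠ i₀}) := by
  classical
  have h1 : Odd (∑ i, a i) := Nat.not_even_iff_odd.1 fun h => hs h.two_dvd
  have h2 : Odd (Fintype.card ι) := by
    have h3 := Finset.odd_sum_iff_odd_card_odd (s := (univ : Finset ι)) (f := a)
    rw [h3] at h1
    rw [Finset.filter_true_of_mem] at h1
    · exact h1
    · intro i _
      exact Nat.not_even_iff_odd.1 fun h => ha i h.two_dvd
  have h3 : Fintype.card {j : ι // j ≠ i₀} = Fintype.card ι - 1 := by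
    rw [Fintype.card_subtype_compl, Fintype.card_subtype_eq]
  rw [h3]
  exact Nat.Odd.sub_odd h2 odd_one

/-- D6f: the parity theorem -/
theorem parity_GD (ha : ∀ i, ¬ 2 ∣ a i) (hs : ¬ 2 ∣ ∑ i, a i) (hne : ∀ r, i₁ r ≠ i₂ r)
    (hsym : ∀ i m, lgl i m = lgl m i) (hsR : ∀ r r', r ≠ r' → sR r r' = sR r' r) (N : ZMod 2)
    (hlam : ∀ r m, m ≠ i₁ r → m ≠ i₂ r →
      lam i₁ i₂ lgl dR sR r (i₁ r) m = lam i₁ i₂ lgl dR sR r (i₂ r) m)
    (hdeg : ∀ i m, i ≠ m → ∑ r ∈ univ.filter (fun r => s(i₁ r, i₂ r) = s(i, m)), dR r = N)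
    (κ' : Option σ → ZMod 2) (hκ : κ' none = kap X D none) :
    ∃ s t : ℕ, (GD X (tau a i₀ i₁ i₂ lgl) (HH a i₀ i₁ i₂ lgl dR sR N) D).card = 2 ^ s ∧
      (open Classical in (univ.filter fun b : Option σ → {j : ι // j ≠ i₀} → ZMod 2 =>
        HH a i₀ i₁ i₂ lgl dR sR N b 0 κ').card) = 2 ^ t ∧
      (s : ZMod 2) = t + ∑ r, (kap X D (some r) + κ' (some r)) := by
  obtain ⟨B, hB⟩ := exists_bilin a i₀ X D
  obtain ⟨L₂, hL₂, hd₂⟩ := exists_LC a i₀ i₁ i₂ lgl dR sR X D ha hs hne N (kap X D) True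
  obtain ⟨L₃, hL₃, hd₃⟩ := exists_LC a i₀ i₁ i₂ lgl dR sR X D ha hs hne N κ' False
  refine ⟨_, _, d6f_GD a i₀ i₁ i₂ lgl dR sR X D N L₂ hL₂,
    d6f_HH a i₀ i₁ i₂ lgl dR sR X D N κ' L₃ hL₃, ?_⟩
  have hV : finrank (ZMod 2) (QV i₀ X D) =
      2 * (Fintype.card (Pl X D) * Fintype.card {j : ι // j ≠ i₀}) := by
    rw [Module.finrank_prod, Module.finrank_pi_fintype]
    simp only [Module.finrank_fintype_fun_eq_card, Finset.sum_const, Finset.card_univ,
      smul_eq_mul]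
    ring
  have hpar := lag_parity B (qQ a i₀ i₁ i₂ lgl dR sR X D)
    (fun x y => by rw [hB]; exact qQ_add a i₀ i₁ i₂ lgl dR sR X D x y)
    (fun x hx => bB_nondeg a i₀ X D ha hs x fun y => by rw [← hB]; exact hx y)
    (LW i₀ dR sR X D) L₂ L₃
    (fun x hx => qQ_LW a i₀ i₁ i₂ lgl dR sR X D ha hs hne hsym hsR N hdeg x hx)
    (fun x hx => qQ_loc a i₀ i₁ i₂ lgl dR sR X D ha hs hne hsym N hlam (kap X D) True x
      ((hL₂ x).1 hx))
    (fun x hx => qQ_loc a i₀ i₁ i₂ lgl dR sR X D ha hs hne hsym N hlam κ' False x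
      ((hL₃ x).1 hx))
    _ (finrank_LW i₀ dR sR X D) hd₂ hd₃ hV
  have hint := finrank_inter a i₀ i₁ i₂ lgl dR sR X D ha hs hne N (kap X D) κ' hκ.symm L₂ L₃
    hL₂ hL₃
  have hev : (((Fintype.card (Pl X D) * Fintype.card {j : ι // j ≠ i₀} : ℕ)) : ZMod 2) = 0 := by
    rw [Nat.cast_mul, (ZMod.natCast_eq_zero_iff_even).2 (d6f_even a i₀ ha hs), mul_zero]
  have h1 := (ZMod.natCast_eq_zero_iff_even).2 hpar
  rw [Nat.cast_add, Nat.cast_add, Nat.cast_add, hint, hev, add_zero] at h1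
  have h2 : ∀ x y z : ZMod 2, x + y + z = 0 → x = z + y := by decide
  exact h2 _ _ _ h1

end D6f

end Pool.Agent.Helper54.PT
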