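import Pool.Agent.Helper31.TW.St2

/-! # Project TW, module CLA: the pattern of a wall is the same at all its generic points -/

set_option autoImplicit false

namespace Pool.Agent.Helper14.TW

open Pool.Agent.Helper31.TW

theorem up (S h : ℤ) (hS : 0 ≤ S) (g : ℕ) (hg : 1 ≤ g) : ∃ s : ℤ, S ≤ h + s * (g : ℤ) := by
  refine ⟨|h| + S, ?_⟩
  have h1 : (1 : ℤ) ≤ g := by exact_mod_cast hg
  have h2 : (|h| + S) * 1 ≤ (|h| + S) * (g : ℤ) :=
    mul_le_mul_of_nonneg_left h1 (by positivity)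
  have h3 : -|h| ≤ h := neg_abs_le h
  linarith

theorem dn (S h : ℤ) (hS : 0 ≤ S) (g : ℕ) (hg : 1 ≤ g) : ∃ s : ℤ, S ≤ -(h + s * (g : ℤ)) := by
  obtain ⟨s, hs⟩ := up S (-h) hS g hg
  exact ⟨-s, by linarith⟩

/-- the combinatorial part -/
theorem core (p1 p2 : ℤ → Prop) (S : ℤ) (hS : 0 ≤ S)
    (t1 : ∀ s s' : ℤ, S ≤ s → S ≤ s' → (p1 s ↔ p1 s'))
    (t2 : ∀ s s' : ℤ, S ≤ s → S ≤ s' → (p1 (-s) ↔ p1 (-s')))
    (t3 : ∀ s s' : ℤ, S ≤ s → S ≤ s' → (p2 s ↔ p2 s'))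
    (a b : ℤ) (ha : p1 a) (hb : ¬ p1 b)
    (G : ℕ) (c12 : ∀ h : ℤ, (∀ g : ℕ, 1 ≤ g → g ∣ G →
      ∃ s : ℤ, ¬ (p1 (h + s * (g : ℤ)) ↔ p1 h)) → (p2 h ↔ p1 h)) (hG : 1 ≤ G)
    (G' : ℕ) (c21 : ∀ h : ℤ, (∀ g : ℕ, 1 ≤ g → g ∣ G' →
      ∃ s : ℤ, ¬ (p2 (h + s * (g : ℤ)) ↔ p2 h)) → (p1 h ↔ p2 h)) :
    ∀ h : ℤ, p1 h ↔ p2 h := by
  intro h
  by_cases hc : p1 S ↔ p1 (-S)
  · obtain ⟨h1, hh1⟩ : ∃ h1 : ℤ, ¬ (p1 h1 ↔ p1 S) := by
      by_cases hp : p1 S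
      · exact ⟨b, fun e => hb (e.2 hp)⟩
      · exact ⟨a, fun e => hp (e.1 ha)⟩
    have k1 : ∀ z : ℤ, ((G : ℤ) ∣ h1 - z) → (p2 z ↔ p1 z) := by
      intro z hz
      refine c12 z ?_
      intro g hg1 hg
      by_cases hz1 : p1 z ↔ p1 S
      · obtain ⟨k, hk⟩ := (Int.natCast_dvd_natCast.2 hg).trans hz
        refine ⟨k, ?_⟩
        have : z + k * (g : ℤ) = h1 := by linarith [mul_comm k (g : ℤ)]
        rw [this, hz1]
        exact hh1
      · obtain ⟨s, hs⟩ := up S z hS g hg1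
        refine ⟨s, ?_⟩
        rw [t1 _ S hs le_rfl]
        exact fun e => hz1 e.symm
    have k2 : p2 S ↔ p1 S := by
      obtain ⟨s, hs⟩ := up S h1 hS G hG
      rw [t3 S _ le_rfl hs, k1 _ ⟨-s, by ring⟩, t1 _ S hs le_rfl]
    by_cases hh : p1 h ↔ p1 S
    · by_contra hne
      apply hne
      refine c21 h ?_
      intro g hg1 hg
      obtain ⟨s, hs⟩ := up S h hS g hg1
      refine ⟨s, ?_⟩
      rw [t3 _ S hs le_rfl, k2, ← hh]
      exact hne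
    · symm
      refine c12 h ?_
      intro g hg1 hg
      obtain ⟨s, hs⟩ := up S h hS g hg1
      refine ⟨s, ?_⟩
      rw [t1 _ S hs le_rfl]
      exact fun e => hh e.symm
  · symm
    refine c12 h ?_
    intro g hg1 hg
    by_cases hh : p1 h ↔ p1 S
    · obtain ⟨s, hs⟩ := dn S h hS g hg1
      refine ⟨s, ?_⟩
      have h2 := t2 _ S hs le_rfl
      rw [neg_neg] at h2
      rw [h2, hh]
      exact fun e => hc e.symm
    · obtain ⟨s, hs⟩ := up S h hS g hg1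
      refine ⟨s, ?_⟩
      rw [t1 _ S hs le_rfl]
      exact fun e => hh e.symm

theorem dot_smul' {n : ℕ} (α u : Fin n → ℤ) (s : ℤ) : dot α (s • u) = s * dot α u := by
  simp only [dot, Pi.smul_apply, smul_eq_mul, Finset.mul_sum]
  refine Finset.sum_congr rfl fun i _ => ?_
  ring

theorem hCLA (hEV1 : StEV1) (hEV2 : StEV2) (hCHO : StCHO) : StCLA := by
  intro n M 𝓐 K hC α hα y1 y2 x1 x2 g1 g2 h1 h2 x
  obtain ⟨u, hu⟩ := hC.nrm.1 α hα
  have P3 := (hEV1 n M 𝓐 K hC.dep).2.2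
  have hred : ∀ y : Fin n → ℤ, Gen 𝓐 α y → ∀ z : Fin n → ℤ,
      (Ev M z y ↔ Ev M (dot α z • u) y) := by
    intro y hy z
    refine P3 z _ y y (fun _ _ => rfl) ?_
    intro γ hγ h0
    by_cases hγα : γ = α
    · subst hγα
      rw [dot_smul', hu, mul_one]
    · exact absurd h0 (hy.2.2 γ hγ hγα)
  have E2 := (hEV2 n M 𝓐 K hC.dep).2
  obtain ⟨s1, hs1⟩ := E2 0 y1 u
  obtain ⟨s2, hs2⟩ := E2 0 y1 (-u)
  obtain ⟨s3, hs3⟩ := E2 0 y2 u
  obtain ⟨G, hG, c12⟩ := hCHO n M 𝓐 K hC α hα y1 y2 u 0 g1 g2.1 g2.2.1 hu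
  obtain ⟨G', hG', c21⟩ := hCHO n M 𝓐 K hC α hα y2 y1 u 0 g2 g1.1 g1.2.1 hu
  have hmain := core (fun h => Ev M (h • u) y1) (fun h => Ev M (h • u) y2)
    ((max s1 (max s2 s3) : ℕ) : ℤ) (by positivity)
    (by
      intro s s' hs hs'
      have a1 : ((s1 : ℕ) : ℤ) ≤ ((max s1 (max s2 s3) : ℕ) : ℤ) := by exact_mod_cast le_max_left _ _
      simpa using hs1 s s' (a1.trans hs) (a1.trans hs'))
    (by
      intro s s' hs hs'
      have a1 : ((s2 : ℕ) : ℤ) ≤ ((max s1 (max s2 s3) : ℕ) : ℤ) := by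
        exact_mod_cast (le_max_left s2 s3).trans (le_max_right _ _)
      simpa using hs2 s s' (a1.trans hs) (a1.trans hs'))
    (by
      intro s s' hs hs'
      have a1 : ((s3 : ℕ) : ℤ) ≤ ((max s1 (max s2 s3) : ℕ) : ℤ) := by
        exact_mod_cast (le_max_right s2 s3).trans (le_max_right _ _)
      simpa using hs3 s s' (a1.trans hs) (a1.trans hs'))
    (dot α x1) (dot α x2) ((hred y1 g1 x1).1 h1) (fun e => h2 ((hred y1 g1 x2).2 e))
    G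
    (by
      intro h hh
      have := c12 h (by
        intro g hg1 hg
        obtain ⟨s, hs⟩ := hh g hg1 hg
        refine ⟨s, ?_⟩
        rw [zero_add, ← add_smul]
        exact hs)
      simpa using this)
    hG G'
    (by
      intro h hh
      have := c21 h (by
        intro g hg1 hg
        obtain ⟨s, hs⟩ := hh g hg1 hg
        refine ⟨s, ?_⟩
        rw [zero_add, ← add_smul]
        exact hs)
      simpa using this)
  rw [hred y1 g1 x, hred y2 g2 x]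
  exact hmain (dot α x)

end Pool.Agent.Helper14.TW
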